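import Pool.Agent.R942.AX.Lim
import Pool.Agent.R479.DA.Frac

/-!
# abc-triples with a small radical and parameters in metric and measure spaces
-/

set_option autoImplicit false

namespace Pool.Agent.R942.AX2

open Filter Topology MeasureTheory
open scoped ENNReal NNReal

/-- the product of the primes dividing `n` -/
def rad (n : ℕ) : ℕ := ∏ p ∈ n.primeFactors, p

/-- `t = (a, b)` are the first members of an abc-triple `(a, b, c)`, `c = a + b` -/
def Triple (t : ℕ × ℕ) : Prop := 0 < t.1 ∧ 0 < t.2 ∧ Nat.Coprime t.1 t.2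

/-- the height `c = a + b` -/
def ht (t : ℕ × ℕ) : ℝ := ((t.1 + t.2 : ℕ) : ℝ)

/-- the radical of `a b c` as a real number -/
def R (t : ℕ × ℕ) : ℝ := (rad (t.1 * t.2 * (t.1 + t.2)) : ℝ)

/-- increasing from `15 / 28` for `η = 0` to `1` for `η = 7 / 9` -/
noncomputable def f (η : ℝ) : ℝ := if η ≤ 1 / 2 then 5 * (10 * η + 9) / 84 else (9 * η + 8) / 15

lemma Fx_eq (η : ℝ) (h0 : 0 ≤ η) (h1 : η < 7 / 9) : Pool.Agent.W221.ABC7.Fx (1 + η) = f η := by
  unfold Pool.Agent.W221.ABC7.Fx f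
  rcases h0.eq_or_lt with h | h
  · subst h
    norm_num
  · rw [if_neg (show ¬ (1 + η ≤ 2 / 3) by linarith), if_neg (show ¬ (1 + η ≤ 1) by linarith)]
    by_cases h2 : η ≤ 1 / 2
    · rw [if_pos (show 1 + η ≤ 3 / 2 by linarith), if_pos h2]
      ring
    · rw [if_neg (show ¬ (1 + η ≤ 3 / 2) by linarith), if_pos (show 1 + η ≤ 16 / 9 by linarith), if_neg h2]
      ring

lemma two_le_ht {t : ℕ × ℕ} (h : Triple t) : 2 ≤ ht t := by
  have : 2 ≤ t.1 + t.2 := by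
    have := h.1
    have := h.2.1
    omega
  unfold ht
  exact_mod_cast this

/-- the triples with `rad (a b c) ≤ K c ^ (1 + η)` -/
def Bad (K η : ℝ) : Set (ℕ × ℕ) := {t | Triple t ∧ R t ≤ K * ht t ^ (1 + η)}

/-- the sum of `c ^ (-δ)` over these triples converges if `δ > f η` -/
theorem bad_summable (K η δ : ℝ) (h0 : 0 ≤ η) (h1 : η < 7 / 9) (hδ : f η < δ) :
    Summable fun t : Bad K η => ht t.1 ^ (-δ) := by
  have hlam : 0 < 1 + η := by linarith
  have hg0 : 0 < f η := by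
    rw [← Fx_eq η h0 h1]
    exact Pool.Agent.W221.ABC7.Fx_pos _ hlam
  obtain ⟨C, hC⟩ := Pool.Agent.R479.DA.sm_count K (1 + η) hlam ((δ - f η) / 2) (by linarith)
  refine Pool.Agent.R479.DA.summable_heights (ι := Bad K η) (fun t => ht t.1)
    (fun t => le_trans one_le_two (two_le_ht t.2.1)) (s := f η + (δ - f η) / 2) (p := δ) (C := C)
    (by linarith) (by linarith) ?_
  intro X hX
  obtain ⟨hfin, hle⟩ := hC X hX
  rw [Fx_eq η h0 h1] at hle
  have hinj : Set.InjOn (fun t : Bad K η => ((t.1.1, t.1.1 + t.1.2) : ℕ × ℕ)) {t | ht t.1 ≤ X} := by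
    rintro ⟨⟨a, b⟩, _⟩ _ ⟨⟨a', b'⟩, _⟩ _ h
    simp only [Prod.mk.injEq] at h
    obtain ⟨h1, h2⟩ := h
    subst h1
    have h3 : b = b' := by omega
    subst h3
    rfl
  have hmaps : Set.MapsTo (fun t : Bad K η => ((t.1.1, t.1.1 + t.1.2) : ℕ × ℕ)) {t | ht t.1 ≤ X}
      {t | t ∈ Pool.Agent.R479.DA.Sm K (1 + η) ∧ (t.2 : ℝ) ≤ X} := by
    rintro ⟨⟨a, b⟩, ⟨h1, h2, h3⟩, h4⟩ h5
    simp only at h1 h2 h3
    refine ⟨⟨h1, by simp only; omega, ?_, ?_⟩, h5⟩
    · simp only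
      exact (Nat.coprime_self_add_right).2 h3
    · simp only
      rw [show a * (a + b) * (a + b - a) = a * b * (a + b) by
        rw [Nat.add_sub_cancel_left]; ring]
      exact h4
  have hf : {t : Bad K η | ht t.1 ≤ X}.Finite := hfin.of_injOn hmaps hinj
  exact ⟨hf, le_trans (by exact_mod_cast Set.ncard_le_ncard_of_injOn _ hmaps hinj hfin) hle⟩

/-- the total mass of the sets attached to the bad triples is finite -/
theorem tsum_bad (K η δ C : ℝ) (h0 : 0 ≤ η) (h1 : η < 7 / 9) (hδ : f η < δ)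
    (m : ℕ × ℕ → ℕ → ℝ≥0∞)
    (h : ∀ t, Triple t → ∑' n, m t n ≤ ENNReal.ofReal (C * ht t ^ (-δ))) :
    ∑' p : Bad K η × ℕ, m p.1.1 p.2 ≠ ⊤ := by
  rw [ENNReal.tsum_prod (f := fun (t : Bad K η) n => m t.1 n)]
  have hp : ∀ t : Bad K η, 0 ≤ ht t.1 := fun t => le_trans zero_le_two (two_le_ht t.2.1)
  have h2 : ∑' t : Bad K η, ∑' n, m t.1 n ≤ ∑' t : Bad K η, ENNReal.ofReal (|C| * ht t.1 ^ (-δ)) := by
    refine ENNReal.tsum_le_tsum fun t => (h t.1 t.2.1).trans ?_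
    apply ENNReal.ofReal_le_ofReal
    exact mul_le_mul_of_nonneg_right (le_abs_self C) (Real.rpow_nonneg (hp t) _)
  refine ne_top_of_le_ne_top ?_ h2
  rw [← ENNReal.ofReal_tsum_of_nonneg (fun t => ?_) ((bad_summable K η δ h0 h1 hδ).mul_left |C|)]
  · exact ENNReal.ofReal_ne_top
  · exact mul_nonneg (abs_nonneg C) (Real.rpow_nonneg (hp t) _)

theorem inf_iff {X : Type} (K η : ℝ) (B : ℕ × ℕ → ℕ → Set X) (x : X)
    (h : {p : (ℕ × ℕ) × ℕ | p.1 ∈ Bad K η ∧ x ∈ B p.1 p.2}.Infinite) :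
    {p : Bad K η × ℕ | x ∈ B p.1.1 p.2}.Infinite := by
  intro hfin
  apply h
  refine (hfin.image fun p : Bad K η × ℕ => ((p.1.1, p.2) : (ℕ × ℕ) × ℕ)).subset ?_
  rintro ⟨t, n⟩ ⟨h2, h4⟩
  exact ⟨(⟨t, h2⟩, n), h4, rfl⟩

/-- **dimension** -/
theorem dim_bad {X : Type} [EMetricSpace X] (B : ℕ × ℕ → ℕ → Set X) (K η s δ C : ℝ) (h0 : 0 ≤ η)
    (h1 : η < 7 / 9) (hs : 0 < s) (hδ : f η < δ)
    (h : ∀ t, Triple t → ∑' n, Metric.ediam (B t n) ^ s ≤ ENNReal.ofReal (C * ht t ^ (-δ))) :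
    dimH {x : X | {p : (ℕ × ℕ) × ℕ | p.1 ∈ Bad K η ∧ x ∈ B p.1 p.2}.Infinite} ≤
      ENNReal.ofReal s := by
  have h2 := Pool.Agent.R942.AX.dimH_limsup (ι := Bad K η × ℕ) (fun p => B p.1.1 p.2) hs
    (tsum_bad K η δ C h0 h1 hδ (fun t n => Metric.ediam (B t n) ^ s) h)
  exact le_trans (dimH_mono fun x hx => inf_iff K η B x hx) h2

/-- **measure** -/
theorem ae_bad {X : Type} (μ : OuterMeasure X) (B : ℕ × ℕ → ℕ → Set X) (K η δ C : ℝ) (h0 : 0 ≤ η)
    (h1 : η < 7 / 9) (hδ : f η < δ)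
    (h : ∀ t, Triple t → ∑' n, μ (B t n) ≤ ENNReal.ofReal (C * ht t ^ (-δ))) :
    μ {x : X | {p : (ℕ × ℕ) × ℕ | p.1 ∈ Bad K η ∧ x ∈ B p.1 p.2}.Infinite} = 0 := by
  have h2 := measure_limsup_cofinite_eq_zero (μ := μ) (s := fun p : Bad K η × ℕ => B p.1.1 p.2)
    (tsum_bad K η δ C h0 h1 hδ (fun t n => μ (B t n)) h)
  rw [cofinite.limsup_set_eq] at h2
  exact measure_mono_null (fun x hx => inf_iff K η B x hx) h2

/-- **arbitrary maps to metric spaces** -/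
theorem dim_map {X : Type} [MetricSpace X] (φ : ℕ × ℕ → X) (K η τ : ℝ) (h0 : 0 ≤ η) (h1 : η < 7 / 9)
    (hτ : 0 < τ) :
    dimH {x : X | {t : ℕ × ℕ | t ∈ Bad K η ∧ dist (φ t) x ≤ ht t ^ (-τ)}.Infinite} ≤
      ENNReal.ofReal (f η / τ) := by
  have hf0 : 0 < f η := by
    rw [← Fx_eq η h0 h1]
    exact Pool.Agent.W221.ABC7.Fx_pos _ (by linarith)
  have hk : ∀ k : ℕ, dimH {x : X | {t : ℕ × ℕ | t ∈ Bad K η ∧ dist (φ t) x ≤ ht t ^ (-τ)}.Infinite} ≤
      ENNReal.ofReal (f η / τ + 1 / ((k : ℝ) + 1)) := by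
    intro k
    have hk0 : (0 : ℝ) < 1 / ((k : ℝ) + 1) := by positivity
    set s : ℝ := f η / τ + 1 / ((k : ℝ) + 1) with hs
    have hs0 : 0 < s := by positivity
    have hsτ : f η < τ * s := by
      rw [hs, mul_add, mul_div_cancel₀ _ hτ.ne']
      linarith [mul_pos hτ hk0]
    refine le_trans (dimH_mono fun x hx => ?_) (dim_bad
      (fun t n => if n = 0 then {x : X | dist (φ t) x ≤ ht t ^ (-τ)} else ∅) K η s (τ * s) (2 ^ s)
      h0 h1 hs0 hsτ fun t ht' => ?_)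
    · simp only [Set.mem_ofPred_eq] at hx ⊢
      intro hfin
      apply hx
      refine (hfin.image Prod.fst).subset ?_
      rintro t ⟨h3, h4⟩
      exact ⟨(t, 0), ⟨h3, by rw [if_pos rfl]; exact h4⟩, rfl⟩
    · rw [tsum_eq_single 0 (fun n hn => by
        rw [if_neg hn, Metric.ediam_empty, ENNReal.zero_rpow_of_pos hs0]), if_pos rfl]
      have h2 : 0 ≤ ht t := le_trans zero_le_two (two_le_ht ht')
      have h3 : Metric.ediam {x : X | dist (φ t) x ≤ ht t ^ (-τ)} ≤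
          ENNReal.ofReal (2 * ht t ^ (-τ)) := by
        apply Metric.ediam_le
        intro x hx y hy
        rw [edist_dist]
        apply ENNReal.ofReal_le_ofReal
        have h4 := dist_triangle x (φ t) y
        rw [dist_comm x (φ t)] at h4
        simp only [Set.mem_ofPred_eq] at hx hy
        linarith
      calc Metric.ediam {x : X | dist (φ t) x ≤ ht t ^ (-τ)} ^ s
          ≤ ENNReal.ofReal (2 * ht t ^ (-τ)) ^ s := ENNReal.rpow_le_rpow h3 hs0.le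
        _ = ENNReal.ofReal (2 ^ s * ht t ^ (-(τ * s))) := by
            rw [ENNReal.ofReal_rpow_of_nonneg (by positivity) hs0.le,
              Real.mul_rpow (by norm_num) (by positivity), ← Real.rpow_mul h2, neg_mul]
  have hlim : Tendsto (fun k : ℕ => ENNReal.ofReal (f η / τ + 1 / ((k : ℝ) + 1))) atTop
      (𝓝 (ENNReal.ofReal (f η / τ))) := by
    apply ENNReal.tendsto_ofReal
    have h2 := (tendsto_one_div_add_atTop_nhds_zero_nat (𝕜 := ℝ)).const_add (f η / τ)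
    rwa [add_zero] at h2
  exact ge_of_tendsto' hlim hk

/-- a violation of the inequality of the question is a bad triple -/
theorem viol_bad {t : ℕ × ℕ} (h : Triple t)
    (h2 : ¬ (ht t ^ (1 - 1 / Real.sqrt (Real.log (ht t))) < R t)) : t ∈ Bad 1 0 := by
  refine ⟨h, ?_⟩
  rw [not_lt] at h2
  rw [one_mul]
  refine h2.trans (Real.rpow_le_rpow_of_exponent_le (le_trans one_le_two (two_le_ht h)) ?_)
  have : 0 ≤ 1 / Real.sqrt (Real.log (ht t)) := by positivity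
  linarith

end Pool.Agent.R942.AX2
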