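import Mathlib

/-!
# The Hausdorff dimension of limsup sets in metric spaces
-/

set_option autoImplicit false

namespace Pool.Agent.R942.AX

open Filter Topology MeasureTheory
open scoped ENNReal NNReal

/-- if the sum of the `(diam (U i)) ^ s` converges, the points in infinitely many of the `U i` form a set of
dimension at most `s` -/
theorem dimH_limsup {X : Type} [EMetricSpace X] {ι : Type} [Countable ι] (U : ι → Set X) {s : ℝ}
    (hs : 0 < s) (hsum : ∑' i, Metric.ediam (U i) ^ s ≠ ⊤) :
    dimH {x | {i | x ∈ U i}.Infinite} ≤ ENNReal.ofReal s := by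
  borelize X
  have hDn : ((Real.toNNReal s : ℝ≥0) : ℝ) = s := Real.coe_toNNReal s hs.le
  have hgoal : ENNReal.ofReal s = ((Real.toNNReal s : ℝ≥0) : ℝ≥0∞) := rfl
  rw [hgoal]
  apply dimH_le_of_hausdorffMeasure_ne_top
  rw [hDn]
  have hd0 := ENNReal.tendsto_cofinite_zero_of_tsum_ne_top hsum
  set r : Finset ι → ℝ≥0∞ := fun F => ⨆ i : {i // i ∉ F}, Metric.ediam (U i) with hr
  have hrt : Tendsto r atTop (𝓝 0) := by
    rw [ENNReal.tendsto_nhds_zero]
    intro ε hε
    have hε' : (0 : ℝ≥0∞) < ε ^ s := by
      rcases eq_or_ne ε ⊤ with h | h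
      · rw [h, ENNReal.top_rpow_of_pos hs]
        exact ENNReal.zero_lt_top
      · exact ENNReal.rpow_pos hε h
    have h2 := hd0.eventually (ge_mem_nhds hε')
    rw [Filter.eventually_cofinite] at h2
    filter_upwards [eventually_ge_atTop h2.toFinset] with F hF
    refine iSup_le fun i => ?_
    by_contra hcon
    apply i.2
    apply hF
    rw [Set.Finite.mem_toFinset]
    intro h3
    exact hcon ((ENNReal.rpow_le_rpow_iff hs).1 h3)
  have key := Measure.hausdorffMeasure_le_liminf_tsum (X := X) (β := Finset ι)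
    (ι := fun F => {i // i ∉ F}) s {x | {i | x ∈ U i}.Infinite} (l := atTop) r hrt
    (fun F i => U i)
    (Eventually.of_forall fun F i =>
      (le_iSup (fun i : {i // i ∉ F} => Metric.ediam (U i)) i))
    (Eventually.of_forall fun F x hx => by
      obtain ⟨i, hi, hiF⟩ := hx.exists_notMem_finset F
      rw [Set.mem_iUnion]
      exact ⟨⟨i, hiF⟩, hi⟩)
  refine ne_top_of_le_ne_top ?_ key
  refine ne_top_of_le_ne_top hsum ?_
  apply Filter.liminf_le_of_le
  · isBoundedDefault
  · intro b hb
    obtain ⟨n, hn⟩ := hb.exists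
    exact hn.trans (ENNReal.tsum_comp_le_tsum_of_injective (f := fun i : {i // i ∉ n} => (i : ι))
      Subtype.val_injective (fun i => Metric.ediam (U i) ^ s))

end Pool.Agent.R942.AX
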